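import Pool.Agent.Helper41.KL.Fin
import Pool.Agent.Helper13.S8.a.Tab

set_option autoImplicit false
set_option maxRecDepth 100000

/-!
Kernel check of the classes (part 4).
-/

namespace S8.a

open KL KC

theorem e32 : ckC FI QT IM 0xe800cf00aa0097006c001e001e001e001e0053002f001f0000 F1 DM KM ND
    36 1000 471183360 348016640 140737488355328 320 10 = true := by decide +kernel

theorem e33 : ckC FI QT IM 0xe800cf00aa0097006c001e001e001e001e0053002f001f0000 F1 DM KM ND
    36 1000 471183360 348016640 140737488355328 330 10 = true := by decide +kernel

theorem e34 : ckC FI QT IM 0xe800cf00aa0097006c001e001e001e001e0053002f001f0000 F1 DM KM ND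
    36 1000 471183360 348016640 140737488355328 340 10 = true := by decide +kernel

theorem e35 : ckC FI QT IM 0xe800cf00aa0097006c001e001e001e001e0053002f001f0000 F1 DM KM ND
    36 1000 471183360 348016640 140737488355328 350 10 = true := by decide +kernel

theorem e36 : ckC FI QT IM 0xe800cf00aa0097006c001e001e001e001e0053002f001f0000 F1 DM KM ND
    36 1000 471183360 348016640 140737488355328 360 10 = true := by decide +kernel

theorem e37 : ckC FI QT IM 0xe800cf00aa0097006c001e001e001e001e0053002f001f0000 F1 DM KM ND
    36 1000 471183360 348016640 140737488355328 370 10 = true := by decide +kernel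

theorem e38 : ckC FI QT IM 0xe800cf00aa0097006c001e001e001e001e0053002f001f0000 F1 DM KM ND
    36 1000 471183360 348016640 140737488355328 380 10 = true := by decide +kernel

theorem e39 : ckC FI QT IM 0xe800cf00aa0097006c001e001e001e001e0053002f001f0000 F1 DM KM ND
    36 1000 471183360 348016640 140737488355328 390 10 = true := by decide +kernel

end S8.a
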